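import Mathlib

/-!
The finite combinatorics behind the four-cell partition of the free group: safe vectors.
-/

namespace Pool.Agent.Helper77.FreeC

/-- The maximal safe vectors: all rearrangements of `(4,3,0,0)`, `(4,1,1,0)`, `(2,2,1,0)`. -/
def maxSafe : List (List ℕ) :=
  [[4,3,0,0],[4,0,3,0],[4,0,0,3],[3,4,0,0],[0,4,3,0],[0,4,0,3],
   [3,0,4,0],[0,3,4,0],[0,0,4,3],[3,0,0,4],[0,3,0,4],[0,0,3,4],
   [4,1,1,0],[4,1,0,1],[4,0,1,1],[1,4,1,0],[1,4,0,1],[0,4,1,1],
   [1,1,4,0],[1,0,4,1],[0,1,4,1],[1,1,0,4],[1,0,1,4],[0,1,1,4],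
   [2,2,1,0],[2,2,0,1],[2,0,2,1],[0,2,2,1],[2,1,2,0],[2,0,1,2],
   [0,2,1,2],[2,1,0,2],[1,2,2,0],[1,2,0,2],[1,0,2,2],[0,1,2,2]]

/-- Boolean version of safety for four numbers. -/
def safeB (a b c d : ℕ) : Bool :=
  maxSafe.any fun m =>
    match m with
    | [p, q, r, s] => Nat.ble a p && Nat.ble b q && Nat.ble c r && Nat.ble d s
    | _ => false

/-- A vector of colour counts is safe if it lies below a maximal safe vector. -/
def Safe (v : Fin 4 → ℕ) : Prop := safeB (v 0) (v 1) (v 2) (v 3) = true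

lemma safeB_iff (a b c d : ℕ) : safeB a b c d = true ↔
    ∃ p q r s, [p, q, r, s] ∈ maxSafe ∧ a ≤ p ∧ b ≤ q ∧ c ≤ r ∧ d ≤ s := by
  unfold safeB
  rw [List.any_eq_true]
  constructor
  · rintro ⟨m, hm, h⟩
    split at h
    · rename_i p q r s
      simp only [Bool.and_eq_true, Nat.ble_eq] at h
      exact ⟨p, q, r, s, hm, h.1.1.1, h.1.1.2, h.1.2, h.2⟩
    · simp at h
  · rintro ⟨p, q, r, s, hm, h1, h2, h3, h4⟩
    refine ⟨_, hm, ?_⟩
    simp only [Bool.and_eq_true, Nat.ble_eq]
    exact ⟨⟨⟨h1, h2⟩, h3⟩, h4⟩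

lemma Safe.mono {v w : Fin 4 → ℕ} (h : Safe w) (hvw : v ≤ w) : Safe v := by
  unfold Safe at h ⊢
  rw [safeB_iff] at h ⊢
  obtain ⟨p, q, r, s, hm, h1, h2, h3, h4⟩ := h
  exact ⟨p, q, r, s, hm, (hvw 0).trans h1, (hvw 1).trans h2, (hvw 2).trans h3, (hvw 3).trans h4⟩

/-- The finite check: for every maximal safe vector `m`, every `v ≤ m` and every colour `i`,
one of `m - v + e_i`, `v + 4 e_i` is safe. -/
def checkB : Bool :=
  maxSafe.all fun m =>
    match m with
    | [p, q, r, s] =>
      (List.range (p + 1)).all fun a => (List.range (q + 1)).all fun b =>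
      (List.range (r + 1)).all fun c => (List.range (s + 1)).all fun d =>
        (safeB (p - a + 1) (q - b) (r - c) (s - d) || safeB (a + 4) b c d) &&
        (safeB (p - a) (q - b + 1) (r - c) (s - d) || safeB a (b + 4) c d) &&
        (safeB (p - a) (q - b) (r - c + 1) (s - d) || safeB a b (c + 4) d) &&
        (safeB (p - a) (q - b) (r - c) (s - d + 1) || safeB a b c (d + 4))
    | _ => false

lemma checkB_true : checkB = true := by decide +kernel

/-- The unit vector. -/
def e (i : Fin 4) : Fin 4 → ℕ := Pi.single i 1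

lemma key {u v : Fin 4 → ℕ} (h : Safe (u + v)) (i : Fin 4) :
    Safe (u + e i) ∨ Safe (v + 4 • e i) := by
  unfold Safe at h
  rw [safeB_iff] at h
  obtain ⟨p, q, r, s, hm, h1, h2, h3, h4⟩ := h
  simp only [Pi.add_apply] at h1 h2 h3 h4
  have hc := checkB_true
  unfold checkB at hc
  rw [List.all_eq_true] at hc
  have hc := hc _ hm
  simp only [List.all_eq_true, List.mem_range] at hc
  have hc := hc (v 0) (by omega) (v 1) (by omega) (v 2) (by omega) (v 3) (by omega)
  simp only [Bool.and_eq_true, Bool.or_eq_true] at hc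
  obtain ⟨⟨⟨hc0, hc1⟩, hc2⟩, hc3⟩ := hc
  fin_cases i
  · rcases hc0 with hc0 | hc0
    · left
      refine Safe.mono (w := ![p - v 0 + 1, q - v 1, r - v 2, s - v 3]) hc0 ?_
      intro j
      fin_cases j <;> simp [e, Pi.single_apply] <;> omega
    · right
      refine Safe.mono (w := ![v 0 + 4, v 1, v 2, v 3]) hc0 ?_
      intro j
      fin_cases j <;> simp [e]
  · rcases hc1 with hc0 | hc0
    · left
      refine Safe.mono (w := ![p - v 0, q - v 1 + 1, r - v 2, s - v 3]) hc0 ?_
      intro j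
      fin_cases j <;> simp [e, Pi.single_apply] <;> omega
    · right
      refine Safe.mono (w := ![v 0, v 1 + 4, v 2, v 3]) hc0 ?_
      intro j
      fin_cases j <;> simp [e]
  · rcases hc2 with hc0 | hc0
    · left
      refine Safe.mono (w := ![p - v 0, q - v 1, r - v 2 + 1, s - v 3]) hc0 ?_
      intro j
      fin_cases j <;> simp [e, Pi.single_apply] <;> omega
    · right
      refine Safe.mono (w := ![v 0, v 1, v 2 + 4, v 3]) hc0 ?_
      intro j
      fin_cases j <;> simp [e]
  · rcases hc3 with hc0 | hc0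
    · left
      refine Safe.mono (w := ![p - v 0, q - v 1, r - v 2, s - v 3 + 1]) hc0 ?_
      intro j
      fin_cases j <;> simp [e, Pi.single_apply] <;> omega
    · right
      refine Safe.mono (w := ![v 0, v 1, v 2, v 3 + 4]) hc0 ?_
      intro j
      fin_cases j <;> simp [e]

lemma not_safe_one {v : Fin 4 → ℕ} (h : ∀ i, 1 ≤ v i) : ¬ Safe v := by
  intro hv
  have h1 : Safe (fun _ => 1) := hv.mono h
  revert h1
  unfold Safe
  decide

lemma safe_four (i : Fin 4) : Safe (4 • e i) := by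
  unfold Safe
  fin_cases i <;> decide

lemma safe_e (i : Fin 4) : Safe (e i) := by
  refine (safe_four i).mono fun j => ?_
  simp only [Pi.smul_apply, smul_eq_mul]
  omega

lemma safe_zero : Safe 0 := by
  unfold Safe
  decide

end Pool.Agent.Helper77.FreeC
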