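import Mathlib
import Pool.Agent.Helper77.FreeC.Safe

/-!
Colouring the tree of cosets.
-/

namespace Pool.Agent.Helper77.FreeC

open Finset

section cnt

variable {α β : Type*}

/-- The number of pairs of each colour in a finite system of forbidden (position, colour)
pairs. -/
def cnt (Y : Finset (α × Fin 4)) : Fin 4 → ℕ :=
  fun j => (Y.filter fun p => p.2 = j).card

lemma cnt_mono {Y Z : Finset (α × Fin 4)} (h : Y ⊆ Z) : cnt Y ≤ cnt Z := fun _ =>
  card_le_card (filter_subset_filter _ h)

lemma cnt_union_le [DecidableEq (α × Fin 4)] (Y Z : Finset (α × Fin 4)) : cnt (Y ∪ Z) ≤ cnt Y + cnt Z := by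
  intro j
  simp only [cnt, Pi.add_apply, filter_union]
  exact card_union_le _ _

lemma cnt_biUnion_le [DecidableEq (α × Fin 4)] (B : Finset β) (f : β → Finset (α × Fin 4)) :
    cnt (B.biUnion f) ≤ ∑ b ∈ B, cnt (f b) := by
  classical
  induction B using Finset.induction_on with
  | empty => intro j; simp [cnt]
  | insert b B hb ih =>
    rw [biUnion_insert, sum_insert hb]
    exact (cnt_union_le _ _).trans (add_le_add le_rfl ih)

lemma cnt_image_le [DecidableEq (β × Fin 4)] (Y : Finset (α × Fin 4)) (f : α × Fin 4 → β × Fin 4)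
    (hf : ∀ p, (f p).2 = p.2) : cnt (Y.image f) ≤ cnt Y := by
  intro j
  simp only [cnt]
  have : (Y.image f).filter (fun p => p.2 = j) ⊆ (Y.filter fun p => p.2 = j).image f := by
    intro q hq
    simp only [mem_filter, mem_image] at hq ⊢
    obtain ⟨⟨p, hp, rfl⟩, hj⟩ := hq
    exact ⟨p, ⟨hp, by rw [← hf]; exact hj⟩, rfl⟩
  exact (card_le_card this).trans card_image_le

lemma cnt_mono_color [DecidableEq (α × Fin 4)] (s : Finset α) (i : Fin 4) :
    cnt (s.image fun x => (x, i)) ≤ s.card • e i := by
  intro j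
  simp only [cnt, Pi.smul_apply, smul_eq_mul]
  by_cases hj : i = j
  · subst hj
    simp only [e, Pi.single_eq_same, mul_one]
    exact (card_filter_le _ _).trans card_image_le
  · have : (s.image fun x => (x, i)).filter (fun p => p.2 = j) = ∅ := by
      apply filter_false_of_mem
      intro p hp
      obtain ⟨x, _, rfl⟩ := mem_image.1 hp
      exact hj
    rw [this]
    simp

end cnt

section choose

variable {β : Type*}

lemma choose_sides (u pe ce : β → Fin 4 → ℕ)
    (hkey : ∀ b V, Safe (V + u b) → Safe (V + pe b) ∨ Safe (u b + ce b)) (B : Finset β) :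
    ∀ r, Safe (r + ∑ b ∈ B, u b) → ∃ C ⊆ B, Safe (r + ∑ b ∈ C, pe b) ∧
      (∀ b ∈ C, Safe (u b)) ∧ ∀ b ∈ B, b ∉ C → Safe (u b + ce b) := by
  classical
  induction B using Finset.induction_on with
  | empty =>
    intro r hr
    exact ⟨∅, subset_rfl, by simpa using hr, by simp, by simp⟩
  | insert b B hb ih =>
    intro r hr
    rw [sum_insert hb] at hr
    have hub : Safe (u b) := hr.mono (by
      intro j
      simp only [Pi.add_apply]
      omega)
    have h1 : Safe ((r + ∑ x ∈ B, u x) + u b) := by
      convert hr using 1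
      abel
    rcases hkey b _ h1 with h | h
    · obtain ⟨C, hCB, hC1, hC2, hC3⟩ := ih (r + pe b) (by
        convert h using 1
        abel)
      have hbC : b ∉ C := fun h => hb (hCB h)
      refine ⟨insert b C, insert_subset_insert _ hCB, ?_, ?_, ?_⟩
      · rw [sum_insert hbC]
        convert hC1 using 1
        abel
      · intro x hx
        rcases mem_insert.1 hx with rfl | hx
        · exact hub
        · exact hC2 x hx
      · intro x hx hxC
        rw [mem_insert, not_or] at hxC
        exact hC3 x ((mem_insert.1 hx).resolve_left hxC.1) hxC.2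
    · obtain ⟨C, hCB, hC1, hC2, hC3⟩ := ih r (hr.mono (by
        intro j
        simp only [Pi.add_apply]
        omega))
      refine ⟨C, hCB.trans (subset_insert _ _), hC1, hC2, ?_⟩
      intro x hx hxC
      rcases mem_insert.1 hx with rfl | hxB
      · exact h
      · exact hC3 x hxB hxC

end choose

section tree

variable {G : Type*} [Group G] (i : Fin 4) (S : Finset G)

/-- Positions in the tree of cosets: an address and an element of the coset. -/
abbrev Pos (G : Type*) := List (Bool × G) × G

open Classical in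
/-- The part of a system located in the root coset. -/
noncomputable def rootPart (Y : Finset (Pos G × Fin 4)) : Finset (G × Fin 4) :=
  (Y.filter fun p => p.1.1 = []).image fun p => (p.1.2, p.2)

open Classical in
/-- The part of a system located in the branch `b`. -/
noncomputable def branch (Y : Finset (Pos G × Fin 4)) (b : Bool × G) : Finset (Pos G × Fin 4) :=
  (Y.filter fun p => p.1.1.head? = some b).image fun p => ((p.1.1.tail, p.1.2), p.2)

lemma mem_rootPart {Y : Finset (Pos G × Fin 4)} {g : G} {j : Fin 4}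
    (h : (([], g), j) ∈ Y) : (g, j) ∈ rootPart Y := by
  classical
  unfold rootPart
  exact mem_image.2 ⟨_, mem_filter.2 ⟨h, rfl⟩, rfl⟩

lemma mem_branch {Y : Finset (Pos G × Fin 4)} {b : Bool × G} {a : List (Bool × G)} {g : G}
    {j : Fin 4} (h : ((b :: a, g), j) ∈ Y) : ((a, g), j) ∈ branch Y b := by
  classical
  unfold branch
  exact mem_image.2 ⟨_, mem_filter.2 ⟨h, rfl⟩, rfl⟩

lemma cnt_parts (Y : Finset (Pos G × Fin 4)) (B : Finset (Bool × G)) :
    cnt (rootPart Y) + ∑ b ∈ B, cnt (branch Y b) ≤ cnt Y := by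
  classical
  have h1 : cnt (rootPart Y) ≤ cnt (Y.filter fun p => p.1.1 = []) :=
    cnt_image_le _ _ fun _ => rfl
  have h2 : ∀ b, cnt (branch Y b) ≤ cnt (Y.filter fun p => p.1.1.head? = some b) := fun b =>
    cnt_image_le _ _ fun _ => rfl
  refine (add_le_add h1 (sum_le_sum fun b _ => h2 b)).trans ?_
  intro j
  simp only [Pi.add_apply, Finset.sum_apply, cnt]
  rw [← card_biUnion, ← card_union_of_disjoint]
  · apply card_le_card
    intro p hp
    simp only [mem_union, mem_filter, mem_biUnion] at hp ⊢
    rcases hp with hp | ⟨b, _, hp⟩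
    · exact ⟨hp.1.1, hp.2⟩
    · exact ⟨hp.1.1, hp.2⟩
  · rw [disjoint_left]
    intro p hp hq
    simp only [mem_filter, mem_biUnion] at hp hq
    obtain ⟨b, _, hq⟩ := hq
    rw [hp.1.2] at hq
    simp at hq
  · intro b _ b' _ hbb'
    rw [Function.onFun, disjoint_left]
    intro p hp hq
    simp only [mem_filter] at hp hq
    rw [hp.1.2] at hq
    exact hbb' (Option.some.inj hq.1.2)

open Classical in
/-- The extra constraints put on the parent coset. -/
noncomputable def pset (b : Bool × G) : Finset (G × Fin 4) :=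
  if b.1 then {(b.2, i)} else (S.image fun s => s * b.2).image fun x => (x, i)

open Classical in
/-- The extra constraints put on the child coset. -/
noncomputable def cset (b : Bool × G) : Finset (Pos G × Fin 4) :=
  if b.1 then (S.image fun s => (([], s) : Pos G)).image fun x => (x, i) else {(([], 1), i)}

/-- Counts for `pset`. -/
def pe (b : Bool × G) : Fin 4 → ℕ := if b.1 then e i else 4 • e i

/-- Counts for `cset`. -/
def ce (b : Bool × G) : Fin 4 → ℕ := if b.1 then 4 • e i else e i

lemma smul_e_mono {m n : ℕ} (h : m ≤ n) (i : Fin 4) : m • e i ≤ n • e i := fun j => by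
  simp only [Pi.smul_apply, smul_eq_mul]
  exact Nat.mul_le_mul_right _ h

lemma cnt_singleton {α : Type*} (x : α) (i : Fin 4) : cnt {(x, i)} ≤ e i := by
  classical
  have := cnt_mono_color {x} i
  simpa using this

lemma cnt_pset (hS : S.card ≤ 4) (b : Bool × G) : cnt (pset i S b) ≤ pe i b := by
  classical
  unfold pset pe
  split_ifs
  · exact cnt_singleton _ _
  · refine (cnt_mono_color _ i).trans (smul_e_mono ?_ i)
    exact card_image_le.trans hS

lemma cnt_cset (hS : S.card ≤ 4) (b : Bool × G) : cnt (cset i S b) ≤ ce i b := by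
  classical
  unfold cset ce
  split_ifs
  · refine (cnt_mono_color _ i).trans (smul_e_mono ?_ i)
    exact card_image_le.trans hS
  · exact cnt_singleton _ _

lemma exists_split (hS : S.card ≤ 4) (Y : Finset (Pos G × Fin 4)) (hY : Safe (cnt Y)) :
    ∃ (own : Finset (G × Fin 4)) (br : Bool × G → Finset (Pos G × Fin 4)),
      Safe (cnt own) ∧ (∀ b, Safe (cnt (br b))) ∧
      (∀ g j, (([], g), j) ∈ Y → (g, j) ∈ own) ∧
      (∀ b a g j, ((b :: a, g), j) ∈ Y → ((a, g), j) ∈ br b) ∧
      (∀ h, (h, i) ∈ own ∨ ∀ s ∈ S, (([], s), i) ∈ br (true, h)) ∧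
      (∀ h, (([], 1), i) ∈ br (false, h) ∨ ∀ s ∈ S, (s * h, i) ∈ own) := by
  classical
  -- the branches that meet Y
  set B : Finset (Bool × G) := Y.biUnion fun p => p.1.1.head?.toFinset with hB
  have hbr : ∀ b, b ∉ B → branch Y b = ∅ := by
    intro b hb
    unfold branch
    rw [image_eq_empty, filter_eq_empty_iff]
    intro p hp hpb
    apply hb
    rw [hB, mem_biUnion]
    exact ⟨p, hp, by rw [hpb]; simp⟩
  obtain ⟨C, hCB, hC1, hC2, hC3⟩ := choose_sides (fun b => cnt (branch Y b)) (pe i) (ce i) (by
    intro b V hV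
    unfold pe ce
    split_ifs
    · exact key hV i
    · rw [add_comm] at hV
      exact (key hV i).symm) B (cnt (rootPart Y)) (hY.mono (cnt_parts Y B))
  refine ⟨rootPart Y ∪ C.biUnion (pset i S), fun b => if b ∈ C then branch Y b else
    branch Y b ∪ cset i S b, ?_, ?_, ?_, ?_, ?_, ?_⟩
  · refine hC1.mono ((cnt_union_le _ _).trans (add_le_add le_rfl ?_))
    exact (cnt_biUnion_le _ _).trans (sum_le_sum fun b _ => cnt_pset i S hS b)
  · intro b
    beta_reduce
    by_cases hbC : b ∈ C
    · rw [if_pos hbC]
      exact hC2 b hbC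
    · rw [if_neg hbC]
      have hu : cnt (branch Y b ∪ cset i S b) ≤ cnt (branch Y b) + ce i b := by
        refine le_trans ?_ (add_le_add le_rfl (cnt_cset i S hS b))
        apply cnt_union_le
      refine Safe.mono ?_ hu
      by_cases hbB : b ∈ B
      · exact hC3 b hbB hbC
      · rw [hbr b hbB]
        have h0 : cnt (∅ : Finset (Pos G × Fin 4)) = 0 := by
          funext j
          simp [cnt]
        rw [h0, zero_add]
        unfold ce
        split_ifs
        · exact safe_four i
        · exact safe_e i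
  · intro g j h
    exact mem_union_left _ (mem_rootPart h)
  · intro b a g j h
    have := mem_branch h
    by_cases hbC : b ∈ C
    · simpa [hbC] using this
    · simp only [if_neg hbC]
      exact mem_union_left _ this
  · intro h
    by_cases hbC : (true, h) ∈ C
    · left
      apply mem_union_right
      rw [mem_biUnion]
      exact ⟨_, hbC, by simp [pset]⟩
    · right
      intro s hs
      simp only [if_neg hbC]
      apply mem_union_right
      simp only [cset, if_true]
      exact mem_image.2 ⟨_, mem_image.2 ⟨s, hs, rfl⟩, rfl⟩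
  · intro h
    by_cases hbC : (false, h) ∈ C
    · right
      intro s hs
      apply mem_union_right
      rw [mem_biUnion]
      refine ⟨_, hbC, ?_⟩
      simp only [pset, Bool.false_eq_true, if_false]
      exact mem_image.2 ⟨_, mem_image.2 ⟨s, hs, rfl⟩, rfl⟩
    · left
      simp only [if_neg hbC]
      apply mem_union_right
      simp [cset]

/-- Safe systems. -/
abbrev SafeSys (G : Type*) := {Y : Finset (Pos G × Fin 4) // Safe (cnt Y)}

variable {S} (hS : S.card ≤ 4)

/-- The system for the root coset. -/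
noncomputable def own (Y : SafeSys G) : Finset (G × Fin 4) :=
  (exists_split i S hS Y.1 Y.2).choose

/-- The systems for the branches. -/
noncomputable def br (Y : SafeSys G) (b : Bool × G) : Finset (Pos G × Fin 4) :=
  (exists_split i S hS Y.1 Y.2).choose_spec.choose b

lemma own_br_spec (Y : SafeSys G) :
      Safe (cnt (own i hS Y)) ∧ (∀ b, Safe (cnt (br i hS Y b))) ∧
      (∀ g j, (([], g), j) ∈ Y.1 → (g, j) ∈ own i hS Y) ∧
      (∀ b a g j, ((b :: a, g), j) ∈ Y.1 → ((a, g), j) ∈ br i hS Y b) ∧
      (∀ h, (h, i) ∈ own i hS Y ∨ ∀ s ∈ S, (([], s), i) ∈ br i hS Y (true, h)) ∧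
      (∀ h, (([], 1), i) ∈ br i hS Y (false, h) ∨ ∀ s ∈ S, (s * h, i) ∈ own i hS Y) :=
  (exists_split i S hS Y.1 Y.2).choose_spec.choose_spec

variable {Valid : (G → Fin 4) → Prop}
  (hV : ∀ Y : Finset (G × Fin 4), Safe (cnt Y) → ∃ c, Valid c ∧ ∀ p ∈ Y, c p.1 ≠ p.2)

/-- The colouring of the tree of cosets. -/
noncomputable def col : List (Bool × G) → SafeSys G → G → Fin 4
  | [], Y => (hV (own i hS Y) (own_br_spec i hS Y).1).choose
  | b :: a, Y => col a ⟨br i hS Y b, (own_br_spec i hS Y).2.1 b⟩

lemma col_valid (a : List (Bool × G)) : ∀ Y : SafeSys G, Valid (col i hS hV a Y) := by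
  induction a with
  | nil => intro Y; exact (hV (own i hS Y) (own_br_spec i hS Y).1).choose_spec.1
  | cons b a ih => intro Y; exact ih _

lemma col_nil_own (Y : SafeSys G) : ∀ p ∈ own i hS Y, col i hS hV [] Y p.1 ≠ p.2 :=
  (hV (own i hS Y) (own_br_spec i hS Y).1).choose_spec.2

lemma col_avoid (a : List (Bool × G)) : ∀ (Y : SafeSys G) (g : G) (j : Fin 4),
    ((a, g), j) ∈ Y.1 → col i hS hV a Y g ≠ j := by
  induction a with
  | nil =>
    intro Y g j h
    exact col_nil_own i hS hV Y (g, j) ((own_br_spec i hS Y).2.2.1 g j h)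
  | cons b a ih =>
    intro Y g j h
    exact ih _ g j ((own_br_spec i hS Y).2.2.2.1 b a g j h)

lemma col_edge_true (a : List (Bool × G)) : ∀ (Y : SafeSys G) (h : G),
    col i hS hV a Y h = i → ∀ s ∈ S, col i hS hV (a ++ [(true, h)]) Y s ≠ i := by
  induction a with
  | nil =>
    intro Y h hc s hs
    rcases (own_br_spec i hS Y).2.2.2.2.1 h with h1 | h1
    · exact absurd hc (col_nil_own i hS hV Y (h, i) h1)
    · exact col_avoid i hS hV [] _ s i (h1 s hs)
  | cons b a ih =>
    intro Y h hc s hs
    exact ih _ h hc s hs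

lemma col_edge_false (a : List (Bool × G)) : ∀ (Y : SafeSys G) (h : G),
    col i hS hV (a ++ [(false, h)]) Y 1 = i → ∀ s ∈ S, col i hS hV a Y (s * h) ≠ i := by
  induction a with
  | nil =>
    intro Y h hc s hs
    rcases (own_br_spec i hS Y).2.2.2.2.2 h with h1 | h1
    · exact absurd hc (col_avoid i hS hV [] ⟨br i hS Y (false, h), _⟩ 1 i h1)
    · exact col_nil_own i hS hV Y (s * h, i) (h1 s hs)
  | cons b a ih =>
    intro Y h hc s hs
    exact ih _ h hc s hs

end tree

end Pool.Agent.Helper77.FreeC
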