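import Mathlib
import Pool.Agent.Helper77.FreeC.Tree

/-!
Four-cell colourings of the free group of countable rank.
-/

namespace Pool.Agent.Helper77.FreeC

open Finset

section action

variable {G : Type*} [Group G]

/-- Reducedness relation for consecutive entries of a stack. -/
def Red (a b : Bool × G) : Prop := ¬ (a.2 = 1 ∧ b.1 = !a.1)

/-- Reduced states. -/
abbrev St (G : Type*) [Group G] := {p : G × List (Bool × G) // p.2.IsChain Red}

open Classical in
/-- The move `x` (for `up = true`) or `x⁻¹` (for `up = false`). -/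
noncomputable def mv (up : Bool) : St G → St G
  | ⟨(h, []), _⟩ => ⟨(1, [(up, h)]), by simp⟩
  | ⟨(h, b :: w), hw⟩ =>
    if hc : h = 1 ∧ b.1 = !up then ⟨(b.2, w), hw.tail⟩
    else ⟨(1, (up, h) :: b :: w), by
      refine List.isChain_cons_cons.2 ⟨hc, hw⟩⟩

lemma mv_nil (up : Bool) (h : G) (hw) :
    mv up (⟨(h, []), hw⟩ : St G) = ⟨(1, [(up, h)]), by simp⟩ := rfl

lemma mv_cons_pos (up : Bool) (h : G) (b : Bool × G) (w : List (Bool × G)) (hw)
    (hc : h = 1 ∧ b.1 = !up) :
    mv up (⟨(h, b :: w), hw⟩ : St G) = ⟨(b.2, w), List.IsChain.tail hw⟩ := by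
  simp only [mv]
  rw [dif_pos hc]

lemma mv_cons_neg (up : Bool) (h : G) (b : Bool × G) (w : List (Bool × G)) (hw)
    (hc : ¬ (h = 1 ∧ b.1 = !up)) :
    mv up (⟨(h, b :: w), hw⟩ : St G) =
      ⟨(1, (up, h) :: b :: w), List.isChain_cons_cons.2 ⟨hc, hw⟩⟩ := by
  simp only [mv]
  rw [dif_neg hc]

lemma mv_mv (up : Bool) (p : St G) : mv (!up) (mv up p) = p := by
  obtain ⟨⟨h, w⟩, hw⟩ := p
  cases w with
  | nil =>
    rw [mv_nil, mv_cons_pos]
    simp
  | cons b w =>
    by_cases hc : h = 1 ∧ b.1 = !up
    · rw [mv_cons_pos _ _ _ _ _ hc]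
      obtain ⟨b1, b2⟩ := b
      obtain ⟨rfl, hb⟩ := hc
      simp only at hb
      subst hb
      cases w with
      | nil => rfl
      | cons b' w' =>
        have h1 := (List.isChain_cons_cons.1 hw).1
        have h2 : ¬ (b2 = 1 ∧ b'.1 = !!up) := by simpa [Red] using h1
        have hw2 : List.IsChain Red (b2, b' :: w').2 := List.IsChain.tail hw
        exact mv_cons_neg (!up) b2 b' w' hw2 h2
    · rw [mv_cons_neg _ _ _ _ _ hc, mv_cons_pos]
      simp

/-- The permutation of the states given by the fresh generator. -/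
noncomputable def xperm : Equiv.Perm (St G) where
  toFun := mv true
  invFun := mv false
  left_inv := mv_mv true
  right_inv := mv_mv false

/-- Left multiplication on the states. -/
def lm : G →* Equiv.Perm (St G) where
  toFun g :=
    { toFun := fun p => ⟨(g * p.1.1, p.1.2), p.2⟩
      invFun := fun p => ⟨(g⁻¹ * p.1.1, p.1.2), p.2⟩
      left_inv := fun p => by simp
      right_inv := fun p => by simp }
  map_one' := by
    ext1 p
    simp
  map_mul' g h := by
    ext1 p
    simp [mul_assoc]

lemma lm_apply (g : G) (p : St G) : lm g p = ⟨(g * p.1.1, p.1.2), p.2⟩ := rfl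

end action

section free

/-- The free group of countable rank. -/
abbrev F := FreeGroup ℕ

/-- The subgroup generated by the first `k` generators. -/
def Gk (k : ℕ) : Subgroup F := Subgroup.closure {g | ∃ l < k, g = FreeGroup.of l}

lemma of_mem_Gk {l k : ℕ} (h : l < k) : FreeGroup.of l ∈ Gk k :=
  Subgroup.subset_closure ⟨l, h, rfl⟩

lemma Gk_mono {k l : ℕ} (h : k ≤ l) : Gk k ≤ Gk l := by
  apply Subgroup.closure_mono
  rintro _ ⟨a, ha, rfl⟩
  exact ⟨a, ha.trans_le h, rfl⟩

lemma exists_mem_Gk (g : F) : ∃ k, g ∈ Gk k := by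
  induction g using FreeGroup.induction_on with
  | C1 => exact ⟨0, one_mem _⟩
  | of x => exact ⟨x + 1, of_mem_Gk (Nat.lt_succ_self x)⟩
  | inv_of x h => exact ⟨x + 1, inv_mem (of_mem_Gk (Nat.lt_succ_self x))⟩
  | mul x y hx hy =>
    obtain ⟨a, ha⟩ := hx
    obtain ⟨b, hb⟩ := hy
    exact ⟨max a b, mul_mem (Gk_mono (le_max_left _ _) ha) (Gk_mono (le_max_right _ _) hb)⟩

lemma exists_subset_Gk (S : Finset F) : ∃ k, ∀ s ∈ S, s ∈ Gk k := by
  induction S using Finset.induction_on with
  | empty => exact ⟨0, by simp⟩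
  | insert a S _ ih =>
    obtain ⟨k, hk⟩ := ih
    obtain ⟨l, hl⟩ := exists_mem_Gk a
    refine ⟨max k l, fun s hs => ?_⟩
    rcases mem_insert.1 hs with rfl | hs
    · exact Gk_mono (le_max_right _ _) hl
    · exact Gk_mono (le_max_left _ _) (hk s hs)

/-- The action of the free group on the states: the generator `k` acts as the fresh letter, all
others by left multiplication. -/
noncomputable def act (k : ℕ) : F →* Equiv.Perm (St F) :=
  FreeGroup.lift fun j => if j = k then xperm else lm (FreeGroup.of j)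

lemma act_of_self (k : ℕ) : act k (FreeGroup.of k) = xperm := by
  simp [act]

lemma act_of_ne {k j : ℕ} (h : j ≠ k) : act k (FreeGroup.of j) = lm (FreeGroup.of j) := by
  simp [act, h]

lemma act_Gk {k : ℕ} {g : F} (hg : g ∈ Gk k) : act k g = lm g := by
  have : Set.EqOn (act k) (lm : F →* _) (Gk k) := by
    apply MonoidHom.eqOn_closure
    rintro _ ⟨l, hl, rfl⟩
    exact act_of_ne hl.ne
  exact this hg

variable (I : ℕ → Fin 4) (T : ℕ → Finset F)

/-- The colouring satisfies the constraints with index less than `k`. -/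
def Valid (k : ℕ) (c : F → Fin 4) : Prop :=
  ∀ j < k, ∀ p, c p = I j → ∀ s ∈ T j, c (s * (FreeGroup.of j * p)) ≠ I j

/-- Feasibility of all safe systems. -/
def Feas (k : ℕ) : Prop :=
  ∀ Y : Finset (F × Fin 4), Safe (cnt Y) → ∃ c, Valid I T k c ∧ ∀ p ∈ Y, c p.1 ≠ p.2

lemma feas_zero : Feas I T 0 := by
  classical
  intro Y hY
  have h : ∀ g : F, ∃ j : Fin 4, (g, j) ∉ Y := by
    intro g
    by_contra hcon
    push Not at hcon
    refine not_safe_one (fun i => ?_) hY
    refine card_pos.2 ⟨(g, i), ?_⟩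
    exact mem_filter.2 ⟨hcon i, rfl⟩
  choose c hc using h
  refine ⟨c, fun j hj => absurd hj (Nat.not_lt_zero j), ?_⟩
  rintro ⟨g, j⟩ hp h
  apply hc g
  rw [show c g = j from h]
  exact hp

lemma feas_succ (hT : ∀ k, (T k).card ≤ 4) (hT' : ∀ k, ∀ s ∈ T k, s ∈ Gk k) (k : ℕ)
    (hk : Feas I T k) : Feas I T (k + 1) := by
  classical
  intro Y hY
  -- transport the system to the tree
  let o : St F := ⟨(1, []), by simp⟩
  let pos : F → Pos F := fun g => (((act k g) o).1.2.reverse, ((act k g) o).1.1)
  set Y' : Finset (Pos F × Fin 4) := Y.image fun p => (pos p.1, p.2) with hY'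
  have hsafe : Safe (cnt Y') := hY.mono (cnt_image_le _ _ fun _ => rfl)
  let C := col (I k) (hT k) (Valid := Valid I T k) hk
  let Z : SafeSys F := ⟨Y', hsafe⟩
  refine ⟨fun g => C (pos g).1 Z (pos g).2, ?_, ?_⟩
  · intro j hj p hp s hs
    -- the state of p
    beta_reduce at hp ⊢
    set q : St F := act k p o with hq
    have hpos : pos p = (q.1.2.reverse, q.1.1) := rfl
    have hmul : ∀ g : F, act k (g * p) o = act k g q := by
      intro g
      rw [map_mul]
      rfl
    rcases Nat.lt_succ_iff_lt_or_eq.1 hj with hj | rfl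
    · -- old constraints
      have hs' : s ∈ Gk k := Gk_mono hj.le (hT' j s hs)
      have h1 : act k (s * (FreeGroup.of j * p)) o = lm (s * FreeGroup.of j) q := by
        rw [← mul_assoc, hmul, act_Gk (mul_mem hs' (of_mem_Gk hj))]
      have h2 : pos (s * (FreeGroup.of j * p)) = (q.1.2.reverse, s * (FreeGroup.of j * q.1.1)) := by
        simp only [pos]
        rw [h1, lm_apply]
        simp only [mul_assoc]
      rw [h2]
      rw [hpos] at hp
      exact col_valid (I k) (hT k) hk q.1.2.reverse Z j hj q.1.1 hp s hs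
    · -- the new constraint
      have hs' : s ∈ Gk j := hT' j s hs
      have h1 : act j (s * (FreeGroup.of j * p)) o = lm s (mv true q) := by
        rw [← mul_assoc, hmul, map_mul, act_Gk hs', act_of_self]
        rfl
      have h2 : pos (s * (FreeGroup.of j * p)) =
          ((mv true q).1.2.reverse, s * (mv true q).1.1) := by
        simp only [pos]
        rw [h1, lm_apply]
      rw [h2]
      rw [hpos] at hp
      clear_value q
      obtain ⟨⟨h, w⟩, hw⟩ := q
      cases w with
      | nil =>
        rw [mv_nil]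
        simp only [List.reverse_nil, List.reverse_cons, List.nil_append, mul_one] at hp ⊢
        exact col_edge_true (I j) (hT j) hk [] Z h hp s hs
      | cons b w =>
        by_cases hc : h = 1 ∧ b.1 = !true
        · rw [mv_cons_pos _ _ _ _ _ hc]
          obtain ⟨b1, b2⟩ := b
          obtain ⟨rfl, hb⟩ := hc
          simp only [Bool.not_true] at hb
          subst hb
          simp only [List.reverse_cons] at hp ⊢
          exact col_edge_false (I j) (hT j) hk w.reverse Z b2 hp s hs
        · rw [mv_cons_neg _ _ _ _ _ hc]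
          simp only [mul_one] at hp ⊢
          rw [List.reverse_cons (a := (true, h))]
          exact col_edge_true (I j) (hT j) hk (b :: w).reverse Z h hp s hs
  · intro p hp
    refine col_avoid (I k) (hT k) hk (pos p.1).1 Z (pos p.1).2 p.2 ?_
    change _ ∈ Y'
    rw [hY']
    exact mem_image.2 ⟨p, hp, rfl⟩

lemma feas (hT : ∀ k, (T k).card ≤ 4) (hT' : ∀ k, ∀ s ∈ T k, s ∈ Gk k) (k : ℕ) :
    Feas I T k := by
  induction k with
  | zero => exact feas_zero I T
  | succ k ih => exact feas_succ I T hT hT' k ih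

lemma exists_valid_all (hT : ∀ k, (T k).card ≤ 4) (hT' : ∀ k, ∀ s ∈ T k, s ∈ Gk k) :
    ∃ c : F → Fin 4, ∀ k, Valid I T k c := by
  have hcl : ∀ k, IsClosed {c : F → Fin 4 | Valid I T k c} := by
    intro k
    have : {c : F → Fin 4 | Valid I T k c} = ⋂ j : {j // j < k}, ⋂ p : F, ⋂ s : {s // s ∈ T j},
        {c | c p = I j → c (s * (FreeGroup.of (j : ℕ) * p)) ≠ I j} := by
      ext c
      simp only [Valid, Set.mem_ofPred_eq, Set.mem_iInter, Subtype.forall]
      exact ⟨fun h j hj p s hs hp => h j hj p hp s hs, fun h j hj p hp s hs => h j hj p s hs hp⟩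
    rw [this]
    refine isClosed_iInter fun j => isClosed_iInter fun p => isClosed_iInter fun s => ?_
    have : {c : F → Fin 4 | c p = I j → c (s * (FreeGroup.of (j : ℕ) * p)) ≠ I j} =
        (fun c : F → Fin 4 => (c p, c (s * (FreeGroup.of (j : ℕ) * p)))) ⁻¹'
          {q : Fin 4 × Fin 4 | q.1 = I j → q.2 ≠ I j} := rfl
    rw [this]
    exact (isClosed_discrete _).preimage (by fun_prop)
  have hne := IsCompact.nonempty_iInter_of_directed_nonempty_isCompact_isClosed
    (fun k => {c : F → Fin 4 | Valid I T k c}) ?_ ?_ ?_ hcl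
  · obtain ⟨c, hc⟩ := hne
    exact ⟨c, fun k => Set.mem_iInter.1 hc k⟩
  · intro k l
    refine ⟨max k l, ?_, ?_⟩
    · intro c hc j hj
      exact hc j (hj.trans_le (le_max_left _ _))
    · intro c hc j hj
      exact hc j (hj.trans_le (le_max_right _ _))
  · intro k
    obtain ⟨c, hc, _⟩ := feas I T hT hT' k ∅ (by
      have h0 : cnt (∅ : Finset (F × Fin 4)) = 0 := by
        funext j
        simp [cnt]
      rw [h0]
      exact safe_zero)
    exact ⟨c, hc⟩
  · intro k
    exact (hcl k).isCompact

/-- There is a colouring of the free group of countable rank with four colours such that for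
every colour `i` and every set `S` with at most four elements there is `x` with
`s x A_i ∩ A_i = ∅` for all `s ∈ S`, where `A_i` is the colour class of `i`. -/
theorem exists_colouring : ∃ c : F → Fin 4, ∀ (i : Fin 4) (S : Finset F), S.card ≤ 4 →
    ∃ x : F, ∀ p, c p = i → ∀ s ∈ S, c (s * (x * p)) ≠ i := by
  classical
  -- enumerate all pairs infinitely often
  obtain ⟨E, hE⟩ : ∃ E : ℕ → Fin 4 × Finset F, Function.Surjective E :=
    exists_surjective_nat _
  let R : ℕ → Fin 4 × Finset F := fun k => E k.unpair.1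
  let T : ℕ → Finset F := fun k =>
    if (R k).2.card ≤ 4 ∧ ∀ s ∈ (R k).2, s ∈ Gk k then (R k).2 else ∅
  obtain ⟨c, hc⟩ := exists_valid_all (fun k => (R k).1) T (by
    intro k
    simp only [T]
    split_ifs with h
    · exact h.1
    · simp) (by
    intro k s hs
    simp only [T] at hs
    split_ifs at hs with h
    · exact h.2 s hs
    · simp at hs)
  refine ⟨c, fun i S hS => ?_⟩
  obtain ⟨n, hn⟩ := hE (i, S)
  obtain ⟨m, hm⟩ := exists_subset_Gk S
  set k := Nat.pair n m with hk
  have hRk : R k = (i, S) := by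
    simp only [R, hk, Nat.unpair_pair, hn]
  have hTk : T k = S := by
    simp only [T, hRk]
    rw [if_pos]
    exact ⟨hS, fun s hs => Gk_mono (Nat.right_le_pair n m) (hm s hs)⟩
  refine ⟨FreeGroup.of k, fun p hp s hs => ?_⟩
  have h1 := hc (k + 1) k (Nat.lt_succ_self k) p
  simp only [hRk, hTk] at h1
  exact h1 hp s hs

end free

end Pool.Agent.Helper77.FreeC
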